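import Pool.Agent.H.MP_d7aa4b_an.C

set_option autoImplicit false
open Finset Filter Topology

namespace Pool.Agent.Results.MP_d7aa4b_an.Yes

variable {𝕜 X : Type*} [RCLike 𝕜] [NormedAddCommGroup X] [NormedSpace 𝕜 X]

def IsGreedy (f : ℕ → X →L[𝕜] 𝕜) (x : X) (k : ℕ → ℕ) : Prop :=
  Function.Injective k ∧ (∀ n, f n x ≠ 0 → n ∈ Set.range k) ∧
    ∀ i j, i < j → ‖f (k j) x‖ ≤ ‖f (k i) x‖

noncomputable def G (e : ℕ → X) (f : ℕ → X →L[𝕜] 𝕜) (x : X) (k : ℕ → ℕ) (m : ℕ) : X :=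
  ∑ j ∈ range m, f (k j) x • e (k j)

noncomputable def C (e : ℕ → X) (f : ℕ → X →L[𝕜] 𝕜) (x : X) (k : ℕ → ℕ) (m : ℕ) : X :=
  (m : 𝕜)⁻¹ • ∑ n ∈ range m, G e f x k (n + 1)

open Pool.Agent.H.MP_d7aa4b_an in
theorem result (𝕜 X : Type*) [RCLike 𝕜] [NormedAddCommGroup X] [NormedSpace 𝕜 X]
    [CompleteSpace X] (e : ℕ → X) (f : ℕ → X →L[𝕜] 𝕜)
    (hbi : ∀ i j, f i (e j) = if i = j then 1 else 0)
    (hden : Dense (Submodule.span 𝕜 (Set.range e) : Set X))
    (he : ∃ c : ℝ, ∀ n, ‖e n‖ ≤ c) (hf : ∃ c : ℝ, ∀ n, ‖f n‖ ≤ c) :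
    ((∀ x k, IsGreedy f x k → Tendsto (fun m => C e f x k m) atTop (𝓝 x)) →
      ∃ K : ℝ, ∀ x k, IsGreedy f x k → ∀ m, ‖G e f x k m‖ ≤ K * ‖x‖) ∧
    ((∀ x k, IsGreedy f x k →
        Tendsto (fun m => (2 : 𝕜) • C e f x k (2 * m) - C e f x k m) atTop (𝓝 x)) →
      ∃ K : ℝ, ∀ x k, IsGreedy f x k → ∀ m, ‖G e f x k m‖ ≤ K * ‖x‖) := by
  obtain ⟨c1, h1⟩ := he
  obtain ⟨c2, h2⟩ := hf
  have h : Bas e f (max 1 (max c1 c2)) := ⟨hbi, le_max_left _ _, fun n => by simp [h1 n],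
    fun n x => ((f n).le_opNorm x).trans (mul_le_mul_of_nonneg_right (by simp [h2 n])
      (norm_nonneg x)), hden⟩
  generalize max 1 (max c1 c2) = c at h
  have main : (∀ x k, IsGreedy f x k →
      Tendsto (fun m => (2 : 𝕜) • C e f x k (2 * m) - C e f x k m) atTop (𝓝 x)) →
      ∃ K : ℝ, ∀ x k, IsGreedy f x k → ∀ m, ‖G e f x k m‖ ≤ K * ‖x‖ := by
    intro H
    have H1 : ∃ K, 1 ≤ K ∧ Ces e f K := by
      by_contra H1
      obtain ⟨x, k, k1, k2, k3, k4⟩ := h.bad H1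
      obtain ⟨D, hD⟩ := (H x k ⟨k1, k2, k3⟩).norm.bddAbove_range
      have hD' : ∀ m, ‖(2 : 𝕜) • C e f x k (2 * m) - C e f x k m‖ ≤ D := fun m => hD ⟨m, rfl⟩
      have := vp_bound (F := fun m => ∑ n ∈ range m, G e f x k (n + 1))
        (G := fun n => G e f x k (n + 1)) (B := c ^ 2 * ‖x‖) (D := D) (by positivity)
        ((norm_nonneg _).trans (hD' 0)) rfl (fun m => sum_range_succ _ m)
        (fun m => by simpa [GG_range, G] using h.GG_le x ((List.range (m + 1)).map k))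
        fun p => by
          rcases Nat.eq_zero_or_pos p with rfl | hp
          · simp
          have p0 : (p : 𝕜) ≠ 0 := by exact_mod_cast hp.ne'
          have e1 : ∑ n ∈ range (2 * p), G e f x k (n + 1) - ∑ n ∈ range p, G e f x k (n + 1) =
              (p : 𝕜) • ((2 : 𝕜) • C e f x k (2 * p) - C e f x k p) := by
            simp only [C, smul_sub, smul_smul]
            push_cast
            congr 1
            · rw [show (p : 𝕜) * (2 * (2 * (p : 𝕜))⁻¹) = 1 by field_simp, one_smul]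
            · rw [mul_inv_cancel₀ p0, one_smul]
          rw [e1, norm_smul, RCLike.norm_natCast]
          exact mul_le_mul_of_nonneg_left (hD' p) p.cast_nonneg
      obtain ⟨N, hN⟩ := exists_nat_ge (D + 2 * (c ^ 2 * ‖x‖))
      obtain ⟨m, hm⟩ := k4 N
      rw [FF_range] at hm
      exact hm.not_ge ((this m).trans (mul_le_mul_of_nonneg_right hN m.cast_nonneg))
    obtain ⟨K, K1, H1⟩ := H1
    obtain ⟨Q, hQ⟩ := H1.qg h K1
    refine ⟨Q, fun x k ⟨k1, k2, k3⟩ m => ?_⟩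
    have := hQ x ((range m).image k) fun a ha n hn => by
      obtain ⟨i, hi, rfl⟩ := mem_image.1 ha
      by_cases h3 : f n x = 0
      · simp [h3]
      obtain ⟨j, rfl⟩ := k2 n h3
      exact k3 i j ((mem_range.1 hi).trans_le
        (not_lt.1 fun h4 => hn (mem_image_of_mem k (mem_range.2 h4))))
    rw [W, sum_image k1.injOn] at this
    simpa [G] using this
  refine ⟨fun H => main fun x k hk => ?_, main⟩
  have := (((H x k hk).comp (tendsto_id.const_mul_atTop' (by norm_num : 0 < 2))).const_smul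
    (2 : 𝕜)).sub (H x k hk)
  rwa [two_smul, add_sub_cancel_right] at this

end Pool.Agent.Results.MP_d7aa4b_an.Yes
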